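import Pool.Agent.SGp.Main

/-!
# Nonconjugate defect groups

The supergroup `GL(1|2)` has a block of finite-dimensional modules (the block of the trivial module)
with two defect groups that are not conjugate.
-/

namespace Pool.Agent.Results.MP_48a6ed_al.NonconjugateDefect

open Pool.Agent.SGp

/-- There is a block `P` of `Rep GL(1|2)`, containing the trivial module, with two defect groups `D`,
`D'` that are not conjugate in `GL(1|2)`. -/
theorem result : ∃ P : SMod 1 2 → Prop, IsBlock P ∧ P (triv 1 2) ∧ ∃ D D' : ClosedSub 1 2,
    IsDefect P D ∧ IsDefect P D' ∧ ¬ Conj D D' :=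
  main

end Pool.Agent.Results.MP_48a6ed_al.NonconjugateDefect
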